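import Mathlib
import Pool.Agent.U139.MV.PP
import Pool.Agent.U398.MV.Stm2

set_option autoImplicit false

/-!
# Project MV2, package PPS: shifted mean value of the prime side
-/

namespace Pool.Agent.U503.MV2.PPS

open MeasureTheory Filter Topology Set Complex
open Pool.Agent.U139.MV.PP Pool.Agent.U398.MV

noncomputable section

/-- the terms of the shifted sum -/
lemma term_eq (s u : ℝ) (n : ℕ) :
    (ArithmeticFunction.vonMangoldt n) ^ 2 / n * Real.exp (-(u - Real.log n) ^ 2) *
      Real.cos (s * Real.log n) = aa u n ^ 2 * Real.cos (s * Real.log n) := by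
  rw [aa_sq]

lemma Vps_eq (s u : ℝ) : Vps s u = ∑' n : ℕ, aa u n ^ 2 * Real.cos (s * Real.log n) := by
  unfold Vps
  congr 1
  ext n
  rw [aa_sq]

lemma term_abs (s u : ℝ) (n : ℕ) : |aa u n ^ 2 * Real.cos (s * Real.log n)| ≤ aa u n ^ 2 := by
  rw [abs_mul, abs_of_nonneg (sq_nonneg _)]
  exact mul_le_of_le_one_right (sq_nonneg _) (Real.abs_cos_le_one _)

lemma term_summable (s u : ℝ) : Summable fun n : ℕ => aa u n ^ 2 * Real.cos (s * Real.log n) :=
  Summable.of_norm_bounded (asq_summable u) fun n => by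
    rw [Real.norm_eq_abs]
    exact term_abs s u n

lemma Vps_abs (s u : ℝ) : |Vps s u| ≤ Vp u := by
  rw [Vps_eq, Vp_eq, ← Real.norm_eq_abs]
  refine tsum_of_norm_bounded (asq_summable u).hasSum fun n => ?_
  rw [Real.norm_eq_abs]
  exact term_abs s u n

lemma Vps_cont (s : ℝ) : Continuous (Vps s) := by
  rw [continuous_iff_continuousAt]
  intro p
  set R := |p| + 1 with hR
  have hR0 : 0 ≤ R := by rw [hR]; positivity
  have hopen : IsOpen {q : ℝ | |q| < R} := isOpen_lt (by fun_prop) continuous_const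
  have hmem : p ∈ {q : ℝ | |q| < R} := by
    show |p| < R
    linarith
  have hb : ∀ n : ℕ, 1 / (n : ℝ) ^ (3 / 2 : ℝ) ≤ 1 := by
    intro n
    rcases Nat.eq_zero_or_pos n with rfl | hn
    · rw [Nat.cast_zero, Real.zero_rpow (by norm_num)]; norm_num
    · have : (1 : ℝ) ≤ n := by exact_mod_cast hn
      rw [div_le_one (by positivity)]
      exact Real.one_le_rpow this (by norm_num)
  have h : ContinuousOn (fun q : ℝ => ∑' n : ℕ, aa q n ^ 2 * Real.cos (s * Real.log n))
      {q : ℝ | |q| < R} := by
    apply continuousOn_tsum (u := fun n : ℕ =>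
      Real.exp ((R + 2) ^ 2 / 2) ^ 2 * (1 / (n : ℝ) ^ (3 / 2 : ℝ)))
    · intro n; exact (((aa_cont n).pow 2).mul continuous_const).continuousOn
    · exact rpow_summable.mul_left _
    · intro n q hq
      rw [Real.norm_eq_abs]
      refine (term_abs s q n).trans ?_
      have h1 := aa_crude hR0 (le_of_lt hq) n
      have h2 := hb n
      have h3 : 0 ≤ 1 / (n : ℝ) ^ (3 / 2 : ℝ) := by positivity
      calc aa q n ^ 2 ≤ (Real.exp ((R + 2) ^ 2 / 2) * (1 / (n : ℝ) ^ (3 / 2 : ℝ))) ^ 2 := by
            have := aa_nonneg q n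
            gcongr
        _ = Real.exp ((R + 2) ^ 2 / 2) ^ 2 *
              ((1 / (n : ℝ) ^ (3 / 2 : ℝ)) * (1 / (n : ℝ) ^ (3 / 2 : ℝ))) := by ring
        _ ≤ Real.exp ((R + 2) ^ 2 / 2) ^ 2 * (1 * (1 / (n : ℝ) ^ (3 / 2 : ℝ))) := by gcongr
        _ = _ := by ring
  have h' : ContinuousOn (Vps s) {q : ℝ | |q| < R} := by
    apply h.congr
    intro q _
    exact Vps_eq s q
  exact h'.continuousAt (hopen.mem_nhds hmem)

/-! ## The mean value -/

lemma cos_int' {y : ℝ} (hy : y ≠ 0) (c A B : ℝ) :
    |∫ t in A..B, Real.cos (t * y + c)| ≤ 2 / |y| := by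
  have h : ∫ t in A..B, Real.cos (t * y + c) =
      (Real.sin (B * y + c) - Real.sin (A * y + c)) / y := by
    have hd : ∀ t ∈ uIcc A B, HasDerivAt (fun t => Real.sin (t * y + c) / y)
        (Real.cos (t * y + c)) t := by
      intro t _
      have h1 : HasDerivAt (fun t : ℝ => t * y + c) y t := by
        simpa using ((hasDerivAt_id t).mul_const y).add_const c
      have h2 := (h1.sin).div_const y
      refine h2.congr_deriv ?_
      field_simp
    rw [intervalIntegral.integral_eq_sub_of_hasDerivAt hd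
      (Continuous.intervalIntegrable (by fun_prop) _ _)]
    ring
  rw [h, abs_div]
  apply div_le_div_of_nonneg_right _ (abs_nonneg y)
  have h1 := Real.abs_sin_le_one (B * y + c)
  have h2 := Real.abs_sin_le_one (A * y + c)
  calc |Real.sin (B * y + c) - Real.sin (A * y + c)|
      ≤ |Real.sin (B * y + c)| + |Real.sin (A * y + c)| := abs_sub _ _
    _ ≤ 2 := by linarith

/-- the integrand -/
def gx (s u t : ℝ) (X Y : ℂ) : ℝ := (cexp (I * u * s) * (X * (starRingEnd ℂ) Y)).re

lemma cross (s u t : ℝ) (n m : ℕ) :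
    (cexp (I * u * s) * (pt u t n * (starRingEnd ℂ) (pt u (t + s) m))).re =
      aa u n * aa u m * Real.cos (t * (Real.log m - Real.log n) + s * Real.log m) := by
  rw [pt_eq, pt_eq, map_mul, Complex.conj_ofReal, ← Complex.exp_conj, map_mul, Complex.conj_ofReal,
    Complex.conj_I]
  have h : cexp (I * u * s) * ((aa u n : ℂ) * cexp ((t * (u - Real.log n) : ℝ) * I) *
      ((aa u m : ℂ) * cexp (((t + s) * (u - Real.log m) : ℝ) * -I))) =
      ((aa u n * aa u m : ℝ) : ℂ) *
        cexp ((t * (Real.log m - Real.log n) + s * Real.log m : ℝ) * I) := by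
    have h2 : cexp ((t * (Real.log m - Real.log n) + s * Real.log m : ℝ) * I) =
        cexp (I * u * s) * cexp ((t * (u - Real.log n) : ℝ) * I) *
          cexp (((t + s) * (u - Real.log m) : ℝ) * -I) := by
      rw [← Complex.exp_add, ← Complex.exp_add]
      congr 1
      push_cast
      ring
    rw [h2]
    push_cast
    ring
  rw [h, Complex.re_ofReal_mul, Complex.exp_ofReal_mul_I_re]

lemma prod_sum (s u t : ℝ) (F : Finset ℕ) :
    (cexp (I * u * s) * ((∑ n ∈ F, pt u t n) * (starRingEnd ℂ) (∑ m ∈ F, pt u (t + s) m))).re =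
      ∑ n ∈ F, ∑ m ∈ F, aa u n * aa u m *
        Real.cos (t * (Real.log m - Real.log n) + s * Real.log m) := by
  rw [map_sum, Finset.sum_mul_sum, Finset.mul_sum, Complex.re_sum]
  refine Finset.sum_congr rfl fun n _ => ?_
  rw [Finset.mul_sum, Complex.re_sum]
  exact Finset.sum_congr rfl fun m _ => cross s u t n m

lemma mvs_finite (s u A B : ℝ) (F : Finset ℕ) :
    |(∫ t in A..B, (cexp (I * u * s) * ((∑ n ∈ F, pt u t n) *
        (starRingEnd ℂ) (∑ m ∈ F, pt u (t + s) m))).re) -
      (B - A) * ∑ n ∈ F, aa u n ^ 2 * Real.cos (s * Real.log n)| ≤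
      4 * ((∑ n ∈ F, aa u n) * ∑ n ∈ F, (n : ℝ) * aa u n) := by
  simp_rw [prod_sum]
  have h2 : (∫ t in A..B, ∑ m ∈ F, ∑ n ∈ F,
      aa u m * aa u n * Real.cos (t * (Real.log n - Real.log m) + s * Real.log n)) =
      ∑ m ∈ F, ∑ n ∈ F, aa u m * aa u n *
        ∫ t in A..B, Real.cos (t * (Real.log n - Real.log m) + s * Real.log n) := by
    rw [intervalIntegral.integral_finsetSum]
    · apply Finset.sum_congr rfl
      intro m _
      rw [intervalIntegral.integral_finsetSum]
      · apply Finset.sum_congr rfl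
        intro n _
        rw [intervalIntegral.integral_const_mul]
      · intro n _
        exact (Continuous.intervalIntegrable (by fun_prop) _ _)
    · intro m _
      exact (Continuous.intervalIntegrable (by fun_prop) _ _)
  have h3 : (B - A) * ∑ n ∈ F, aa u n ^ 2 * Real.cos (s * Real.log n) =
      ∑ m ∈ F, ∑ n ∈ F, aa u m * aa u n *
        (if m = n then (B - A) * Real.cos (s * Real.log n) else 0) := by
    rw [Finset.mul_sum]
    apply Finset.sum_congr rfl
    intro m hm
    simp only [mul_ite, mul_zero]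
    rw [Finset.sum_ite_eq, if_pos hm]
    ring
  rw [h2, h3, ← Finset.sum_sub_distrib]
  have h4 : ∀ m n : ℕ, |aa u m * aa u n *
      (∫ t in A..B, Real.cos (t * (Real.log n - Real.log m) + s * Real.log n)) -
      aa u m * aa u n * (if m = n then (B - A) * Real.cos (s * Real.log n) else 0)| ≤
      aa u m * aa u n * (2 * (m + n)) := by
    intro m n
    have hp : 0 ≤ aa u m * aa u n := mul_nonneg (aa_nonneg u m) (aa_nonneg u n)
    rcases Nat.eq_zero_or_pos m with rfl | hm
    · rw [aa_zero]; simp
    rcases Nat.eq_zero_or_pos n with rfl | hn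
    · rw [aa_zero]; simp
    rw [← mul_sub, abs_mul, abs_of_nonneg hp]
    apply mul_le_mul_of_nonneg_left _ hp
    by_cases hmn : m = n
    · subst hmn
      have h5 : (∫ t in A..B, Real.cos (t * (Real.log m - Real.log m) + s * Real.log m)) =
          (B - A) * Real.cos (s * Real.log m) := by
        simp only [sub_self, mul_zero, zero_add]
        rw [intervalIntegral.integral_const, smul_eq_mul]
      rw [if_pos rfl, h5, sub_self, abs_zero]
      positivity
    · rw [if_neg hmn, sub_zero]
      have hne : Real.log n - Real.log m ≠ 0 := by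
        intro h0
        have h5 : Real.log n = Real.log m := by linarith
        have h6 := Real.log_injOn_pos (Set.mem_Ioi.mpr (by exact_mod_cast hn : (0 : ℝ) < n))
          (Set.mem_Ioi.mpr (by exact_mod_cast hm : (0 : ℝ) < m)) h5
        exact hmn (by exact_mod_cast h6.symm)
      refine (cos_int' hne _ A B).trans ?_
      have := log_sep hn hm (Ne.symm hmn)
      rw [add_comm (m : ℝ)]
      exact this
  calc |∑ m ∈ F, ((∑ n ∈ F, aa u m * aa u n *
          ∫ t in A..B, Real.cos (t * (Real.log n - Real.log m) + s * Real.log n)) -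
          ∑ n ∈ F, aa u m * aa u n *
            (if m = n then (B - A) * Real.cos (s * Real.log n) else 0))|
      ≤ ∑ m ∈ F, ∑ n ∈ F, aa u m * aa u n * (2 * (m + n)) := by
        refine (Finset.abs_sum_le_sum_abs _ _).trans (Finset.sum_le_sum fun m _ => ?_)
        rw [← Finset.sum_sub_distrib]
        exact (Finset.abs_sum_le_sum_abs _ _).trans (Finset.sum_le_sum fun n _ => h4 m n)
    _ = 4 * ((∑ n ∈ F, aa u n) * ∑ n ∈ F, (n : ℝ) * aa u n) := by
        have h5 : ∑ m ∈ F, ∑ n ∈ F, aa u m * aa u n * (2 * ((m : ℝ) + n)) =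
            2 * ((∑ n ∈ F, (n : ℝ) * aa u n) * ∑ n ∈ F, aa u n) +
            2 * ((∑ n ∈ F, aa u n) * ∑ n ∈ F, (n : ℝ) * aa u n) := by
          rw [Finset.sum_mul_sum, Finset.sum_mul_sum, Finset.mul_sum, Finset.mul_sum,
            ← Finset.sum_add_distrib]
          apply Finset.sum_congr rfl
          intro m _
          rw [Finset.mul_sum, Finset.mul_sum, ← Finset.sum_add_distrib]
          apply Finset.sum_congr rfl
          intro n _
          ring
        rw [h5]
        ring

attribute [local irreducible] Pool.Agent.U398.MV.Pf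

lemma re_integral (s u A B : ℝ) :
    (cexp (I * u * s) * ∫ t in A..B, Pf u t * (starRingEnd ℂ) (Pf u (t + s))).re =
      ∫ t in A..B, (cexp (I * u * s) * (Pf u t * (starRingEnd ℂ) (Pf u (t + s)))).re := by
  have hc : Continuous fun t : ℝ => Pf u t * (starRingEnd ℂ) (Pf u (t + s)) := by
    have h0 : Continuous fun t : ℝ => ((u, t) : ℝ × ℝ) := continuous_const.prodMk continuous_id
    have h1 : Continuous (Pf u) := by
      have h := Pf_cont.comp h0
      simpa only [Function.comp_def] using h
    have h2 : Continuous (Pf u ∘ fun t : ℝ => t + s) := h1.comp (continuous_add_const s)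
    exact h1.mul (Complex.continuous_conj.comp h2)
  rw [← intervalIntegral.integral_const_mul]
  have h3 : IntervalIntegrable
      (fun t : ℝ => cexp (I * u * s) * (Pf u t * (starRingEnd ℂ) (Pf u (t + s)))) volume A B :=
    (continuous_const.mul hc).intervalIntegrable _ _
  exact (Complex.reCLM.intervalIntegral_comp_comm h3).symm

lemma mvs (s u A B : ℝ) :
    |(cexp (I * u * s) * ∫ t in A..B, Pf u t * (starRingEnd ℂ) (Pf u (t + s))).re -
      (B - A) * Vps s u| ≤ 4 * ((∑' n, aa u n) * ∑' n : ℕ, (n : ℝ) * aa u n) := by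
  have hs : ∀ t, Summable (pt u t) := fun t =>
    Summable.of_norm (by simp_rw [pt_norm]; exact aa_summable u)
  have hb : ∀ (t : ℝ) (N : ℕ), ‖∑ n ∈ Finset.range N, pt u t n‖ ≤ ∑' n, aa u n := by
    intro t N
    refine (norm_sum_le _ _).trans ?_
    simp_rw [pt_norm]
    exact (aa_summable u).sum_le_tsum _ (fun n _ => aa_nonneg u n)
  have h0 : 0 ≤ ∑' n, aa u n := tsum_nonneg (aa_nonneg u)
  have hexp : ‖cexp (I * u * s)‖ = 1 := by
    have : I * (u : ℂ) * s = ((u * s : ℝ) : ℂ) * I := by push_cast; ring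
    rw [this, Complex.norm_exp_ofReal_mul_I]
  rw [re_integral]
  have h1 : Tendsto (fun N : ℕ => ∫ t in A..B, (cexp (I * u * s) *
      ((∑ n ∈ Finset.range N, pt u t n) *
        (starRingEnd ℂ) (∑ m ∈ Finset.range N, pt u (t + s) m))).re) atTop
      (𝓝 (∫ t in A..B, (cexp (I * u * s) * (Pf u t * (starRingEnd ℂ) (Pf u (t + s)))).re)) := by
    apply intervalIntegral.tendsto_integral_filter_of_dominated_convergence
      (bound := fun _ => (∑' n, aa u n) * ∑' n, aa u n)
    · refine Eventually.of_forall fun N => ?_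
      apply Continuous.aestronglyMeasurable
      have h2 : ∀ n, Continuous fun t : ℝ => pt u t n := fun n => by unfold pt; fun_prop
      have h3 : ∀ n, Continuous fun t : ℝ => pt u (t + s) n := fun n => by unfold pt; fun_prop
      have h4 : Continuous fun t : ℝ => ∑ n ∈ Finset.range N, pt u t n :=
        continuous_finsetSum _ fun n _ => h2 n
      have h5 : Continuous fun t : ℝ => ∑ n ∈ Finset.range N, pt u (t + s) n :=
        continuous_finsetSum _ fun n _ => h3 n
      exact Complex.continuous_re.comp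
        (continuous_const.mul (h4.mul (Complex.continuous_conj.comp h5)))
    · refine Eventually.of_forall fun N => Eventually.of_forall fun t _ => ?_
      rw [Real.norm_eq_abs]
      refine (Complex.abs_re_le_norm _).trans ?_
      rw [norm_mul, norm_mul, hexp, one_mul, RCLike.norm_conj]
      exact mul_le_mul (hb t N) (hb (t + s) N) (norm_nonneg _) h0
    · exact intervalIntegrable_const
    · refine Eventually.of_forall fun t _ => ?_
      have h2 : Tendsto (fun N : ℕ => ∑ n ∈ Finset.range N, pt u t n) atTop (𝓝 (Pf u t)) := by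
        rw [Pf_eq]
        exact (hs t).hasSum.tendsto_sum_nat
      have h3 : Tendsto (fun N : ℕ => ∑ n ∈ Finset.range N, pt u (t + s) n) atTop
          (𝓝 (Pf u (t + s))) := by
        rw [Pf_eq]
        exact (hs (t + s)).hasSum.tendsto_sum_nat
      have h4 := (Complex.continuous_conj.tendsto (Pf u (t + s))).comp h3
      exact (Complex.continuous_re.tendsto _).comp ((h2.mul h4).const_mul _)
  have h2 : Tendsto (fun N : ℕ => (B - A) *
      ∑ n ∈ Finset.range N, aa u n ^ 2 * Real.cos (s * Real.log n)) atTop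
      (𝓝 ((B - A) * Vps s u)) := by
    rw [Vps_eq]
    exact ((term_summable s u).hasSum.tendsto_sum_nat).const_mul _
  have h3 := (h1.sub h2).abs
  refine le_of_tendsto h3 (Eventually.of_forall fun N => ?_)
  refine (mvs_finite s u A B (Finset.range N)).trans ?_
  have h4 := (aa_summable u).sum_le_tsum (Finset.range N) (fun n _ => aa_nonneg u n)
  have h5 := (naa_summable u).sum_le_tsum (Finset.range N)
    (fun n _ => mul_nonneg (Nat.cast_nonneg n) (aa_nonneg u n))
  have h6 : 0 ≤ ∑ n ∈ Finset.range N, (n : ℝ) * aa u n :=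
    Finset.sum_nonneg fun n _ => mul_nonneg (Nat.cast_nonneg n) (aa_nonneg u n)
  gcongr

theorem t_PPS : S_PPS := by
  set C2 : ℝ := Real.exp 1 * (4 * K0) with hC2
  set C3 : ℝ := Real.exp (9 / 8) * (4 * K0) with hC3
  set C4 : ℝ := Real.exp (25 / 8) * (4 * K0) with hC4
  have hK := K0_pos
  have hC20 : 0 < C2 := by positivity
  have hC30 : 0 < C3 := by positivity
  have hC40 : 0 < C4 := by positivity
  refine ⟨5 * C2 + 4 * (C3 * C4), 100, by positivity, le_refl _, Vps_cont, Vps_abs, ?_⟩
  intro T hT u hu huL s hs0 hs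
  have hT0 : 0 < T := by linarith
  have hsT : 0 < Real.sqrt T := Real.sqrt_pos.mpr hT0
  have hsq : Real.sqrt T * Real.sqrt T = T := Real.mul_self_sqrt hT0.le
  have hlog1 : Real.log T = 2 * Real.log (Real.sqrt T) := by
    rw [Real.log_sqrt hT0.le]; ring
  have hlog2 : Real.log (Real.sqrt T) ≤ Real.sqrt T - 1 := Real.log_le_sub_one_of_pos hsT
  have hlog3 : 2 ≤ Real.log T := by
    rw [Real.le_log_iff_exp_le hT0]
    have h1 : Real.exp 2 = Real.exp 1 * Real.exp 1 := by rw [← Real.exp_add]; norm_num
    have h2 := Real.exp_one_lt_d9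
    have h3 := Real.exp_pos 1
    rw [h1]
    nlinarith
  have hlog0 : 0 < Real.log T := by linarith
  have h1 := mvs s u (T + Real.log T) (2 * T - Real.log T - s)
  have h2 := aa_tsum u
  have h3 := naa_tsum u
  have h20 : 0 ≤ ∑' n, aa u n := tsum_nonneg (aa_nonneg u)
  have h30 : 0 ≤ ∑' n : ℕ, (n : ℝ) * aa u n :=
    tsum_nonneg fun n => mul_nonneg (Nat.cast_nonneg n) (aa_nonneg u n)
  have h4 : (∑' n, aa u n) * ∑' n : ℕ, (n : ℝ) * aa u n ≤ C3 * C4 * T := by
    calc (∑' n, aa u n) * ∑' n : ℕ, (n : ℝ) * aa u n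
        ≤ (Real.exp (9 / 8) * Real.exp (u / 2) * (4 * K0)) *
          (Real.exp (25 / 8) * Real.exp (3 * u / 2) * (4 * K0)) := by gcongr
      _ = C3 * C4 * (Real.exp (u / 2) * Real.exp (3 * u / 2)) := by rw [hC3, hC4]; ring
      _ ≤ C3 * C4 * T := by
          apply mul_le_mul_of_nonneg_left _ (by positivity)
          rw [← Real.exp_add]
          calc Real.exp (u / 2 + 3 * u / 2) ≤ Real.exp (Real.log T) := by
                apply Real.exp_le_exp.mpr; linarith
            _ = T := Real.exp_log hT0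
  have h5 := Vp_le hu
  rw [← hC2] at h5
  have h50 := Vp_nonneg u
  have h6 : 2 * Real.log T * Vp u ≤ 4 * C2 * T := by
    have h7 : 1 + u ≤ Real.sqrt T := by linarith
    have h8 : Real.log T ≤ 2 * Real.sqrt T := by linarith
    calc 2 * Real.log T * Vp u
        ≤ 2 * (2 * Real.sqrt T) * (C2 * Real.sqrt T) := by
          apply mul_le_mul (by linarith) (h5.trans _) h50 (by positivity)
          exact mul_le_mul_of_nonneg_left h7 hC20.le
      _ = 4 * C2 * (Real.sqrt T * Real.sqrt T) := by ring
      _ = 4 * C2 * T := by rw [hsq]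
  have h7 : s * Vp u ≤ C2 * T := by
    calc s * Vp u ≤ (T / Real.log T) * (C2 * Real.log T) := by
          apply mul_le_mul hs (h5.trans _) h50 (by positivity)
          exact mul_le_mul_of_nonneg_left (by linarith) hC20.le
      _ = C2 * T := by field_simp
  have h8 : |(2 * Real.log T + s) * Vps s u| ≤ 5 * C2 * T := by
    rw [abs_mul, abs_of_nonneg (by positivity)]
    calc (2 * Real.log T + s) * |Vps s u| ≤ (2 * Real.log T + s) * Vp u :=
          mul_le_mul_of_nonneg_left (Vps_abs s u) (by positivity)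
      _ ≤ 5 * C2 * T := by nlinarith
  have h9 : (2 * T - Real.log T - s - (T + Real.log T)) * Vps s u =
      T * Vps s u - (2 * Real.log T + s) * Vps s u := by ring
  rw [h9] at h1
  rw [abs_le] at h1 h8 ⊢
  constructor <;> nlinarith [h1.1, h1.2, h4, h8.1, h8.2]

end

end Pool.Agent.U503.MV2.PPS
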